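import Mathlib
import Pool.Agent.U73.LC.Stm

set_option autoImplicit false

/-!
# Package AREA of the project LC: the areas of the regions `0 < ± (u³ - v²) ≤ 1`
-/

namespace Pool.Agent.U653.LC

open MeasureTheory Set Filter Topology

/-! ### the Beta integral -/

theorem ar_beta {a b : ℝ} (ha : 0 < a) (hb : 0 < b) :
    IntegrableOn (fun x : ℝ => x ^ (a - 1) * (1 - x) ^ (b - 1)) (Ioo 0 1) ∧
    ∫ x in Ioo (0 : ℝ) 1, x ^ (a - 1) * (1 - x) ^ (b - 1) =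
      Real.Gamma a * Real.Gamma b / Real.Gamma (a + b) := by
  have h0 := Complex.betaIntegral_convergent (u := a) (v := b) (by simpa) (by simpa)
  rw [intervalIntegrable_iff_integrableOn_Ioc_of_le zero_le_one] at h0
  have hval : ∀ x ∈ Ioc (0 : ℝ) 1,
      ((x : ℂ) ^ ((a : ℂ) - 1) * (1 - (x : ℂ)) ^ ((b : ℂ) - 1)).re = x ^ (a - 1) * (1 - x) ^ (b - 1) := by
    intro x hx
    have e1 : (x : ℂ) ^ ((a : ℂ) - 1) = ((x ^ (a - 1) : ℝ) : ℂ) := by
      rw [Complex.ofReal_cpow hx.1.le]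
      push_cast
      rfl
    have e2 : (1 - (x : ℂ)) ^ ((b : ℂ) - 1) = (((1 - x) ^ (b - 1) : ℝ) : ℂ) := by
      rw [Complex.ofReal_cpow (by linarith [hx.2])]
      push_cast
      rfl
    rw [e1, e2, ← Complex.ofReal_mul, Complex.ofReal_re]
  constructor
  · have h1 := h0.re
    have h2 : IntegrableOn (fun x : ℝ => x ^ (a - 1) * (1 - x) ^ (b - 1)) (Ioc 0 1) := by
      refine IntegrableOn.congr_fun h1 ?_ measurableSet_Ioc
      intro x hx
      exact hval x hx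
    exact h2.mono_set Ioo_subset_Ioc_self
  · have h3 := ProbabilityTheory.beta_eq_betaIntegralReal a b ha hb
    unfold ProbabilityTheory.beta at h3
    rw [h3, Complex.betaIntegral, intervalIntegral.integral_of_le zero_le_one,
      ← integral_Ioc_eq_integral_Ioo]
    have h4 := integral_re h0
    have h5 : (∫ x in Ioc (0 : ℝ) 1, (x : ℂ) ^ ((a : ℂ) - 1) * (1 - (x : ℂ)) ^ ((b : ℂ) - 1)).re =
        ∫ x in Ioc (0 : ℝ) 1, ((x : ℂ) ^ ((a : ℂ) - 1) * (1 - (x : ℂ)) ^ ((b : ℂ) - 1)).re := h4.symm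
    rw [h5]
    exact setIntegral_congr_fun measurableSet_Ioc (fun x hx => (hval x hx).symm)

/-! ### substitution -/

theorem ar_sub (p : ℝ) (hp : p ≠ 0) (g b : ℝ → ℝ)
    (h : ∀ x : ℝ, 0 < x → (|p| * x ^ (p - 1)) * g (x ^ p) = (Ioo (0 : ℝ) 1).indicator b x)
    (hb : IntegrableOn b (Ioo 0 1)) :
    IntegrableOn g (Ioi 0) ∧ ∫ y in Ioi (0 : ℝ), g y = ∫ x in Ioo (0 : ℝ) 1, b x := by
  have hs : (Ioi (0 : ℝ)) ∩ Ioo 0 1 = Ioo 0 1 := by
    ext x
    simp only [mem_inter_iff, mem_Ioi, mem_Ioo]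
    tauto
  constructor
  · rw [← integrableOn_Ioi_comp_rpow_iff g hp]
    have h1 : IntegrableOn ((Ioo (0 : ℝ) 1).indicator b) (Ioi 0) := by
      have : Integrable ((Ioo (0 : ℝ) 1).indicator b) := (integrable_indicator_iff measurableSet_Ioo).2 hb
      exact this.integrableOn
    refine IntegrableOn.congr_fun h1 ?_ measurableSet_Ioi
    intro x hx
    show _ = (|p| * x ^ (p - 1)) * g (x ^ p)
    exact (h x hx).symm
  · rw [← integral_comp_rpow_Ioi g hp]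
    simp only [smul_eq_mul]
    rw [setIntegral_congr_fun (g := (Ioo (0 : ℝ) 1).indicator b) measurableSet_Ioi
      (fun x hx => h x hx)]
    rw [setIntegral_indicator measurableSet_Ioo, hs]

/-- `∫ du / √(u³ - 1)` -/
theorem ar_J1 : IntegrableOn (fun u : ℝ => (√(u ^ 3 - 1))⁻¹) (Ioi 0) ∧
    ∫ u in Ioi (0 : ℝ), (√(u ^ 3 - 1))⁻¹ =
      1 / 3 * (Real.Gamma (1 / 6) * Real.Gamma (1 / 2) / Real.Gamma (2 / 3)) := by
  have hB := ar_beta (show (0 : ℝ) < 1 / 6 by norm_num) (show (0 : ℝ) < 1 / 2 by norm_num)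
  rw [show (1 / 6 : ℝ) + 1 / 2 = 2 / 3 by norm_num] at hB
  have h := ar_sub (-(1 / 3)) (by norm_num) (fun u : ℝ => (√(u ^ 3 - 1))⁻¹)
    (fun x => 1 / 3 * (x ^ (1 / 6 - 1 : ℝ) * (1 - x) ^ (1 / 2 - 1 : ℝ))) (by
      intro x hx
      have e3 : (x ^ (-(1 / 3) : ℝ)) ^ 3 = x⁻¹ := by
        rw [← Real.rpow_natCast, ← Real.rpow_mul hx.le]
        norm_num
        rw [Real.rpow_neg_one]
      simp only [e3]
      by_cases h1 : x < 1
      · rw [indicator_of_mem (by exact ⟨hx, h1⟩)]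
        have h2 : 0 < 1 - x := by linarith
        have e4 : x⁻¹ - 1 = (1 - x) * x⁻¹ := by field_simp
        have e5 : (√(x⁻¹ - 1))⁻¹ = (1 - x) ^ (1 / 2 - 1 : ℝ) * x ^ (1 / 2 : ℝ) := by
          rw [e4, Real.sqrt_mul h2.le, mul_inv, Real.sqrt_inv, inv_inv, Real.sqrt_eq_rpow,
            Real.sqrt_eq_rpow, ← Real.rpow_neg h2.le]
          norm_num
        rw [e5, abs_of_neg (by norm_num : (-(1 / 3) : ℝ) < 0)]
        have e6 : x ^ (-(1 / 3) - 1 : ℝ) * x ^ (1 / 2 : ℝ) = x ^ (1 / 6 - 1 : ℝ) := by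
          rw [← Real.rpow_add hx]
          norm_num
        rw [← e6]
        ring
      · push Not at h1
        rw [indicator_of_notMem (by rintro ⟨_, h2⟩; linarith)]
        have h2 : x⁻¹ - 1 ≤ 0 := by
          have := inv_le_one_of_one_le₀ h1
          linarith
        rw [Real.sqrt_eq_zero_of_nonpos h2]
        simp) (hB.1.const_mul _)
  refine ⟨h.1, ?_⟩
  rw [h.2, integral_const_mul, hB.2]

/-- `∫ √(1 - x³) dx` -/
theorem ar_J3 : IntegrableOn (fun u : ℝ => √(1 - u ^ 3)) (Ioi 0) ∧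
    ∫ u in Ioi (0 : ℝ), √(1 - u ^ 3) =
      1 / 3 * (Real.Gamma (1 / 3) * Real.Gamma (3 / 2) / Real.Gamma (11 / 6)) := by
  have hB := ar_beta (show (0 : ℝ) < 1 / 3 by norm_num) (show (0 : ℝ) < 3 / 2 by norm_num)
  rw [show (1 / 3 : ℝ) + 3 / 2 = 11 / 6 by norm_num] at hB
  have h := ar_sub (1 / 3) (by norm_num) (fun u : ℝ => √(1 - u ^ 3))
    (fun x => 1 / 3 * (x ^ (1 / 3 - 1 : ℝ) * (1 - x) ^ (3 / 2 - 1 : ℝ))) (by
      intro x hx
      have e3 : (x ^ (1 / 3 : ℝ)) ^ 3 = x := by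
        rw [← Real.rpow_natCast, ← Real.rpow_mul hx.le]
        norm_num
      simp only [e3]
      by_cases h1 : x < 1
      · rw [indicator_of_mem (by exact ⟨hx, h1⟩)]
        have h2 : 0 < 1 - x := by linarith
        rw [Real.sqrt_eq_rpow, abs_of_pos (by norm_num : (0 : ℝ) < 1 / 3)]
        rw [show (3 / 2 - 1 : ℝ) = 1 / 2 by norm_num]
        ring
      · push Not at h1
        rw [indicator_of_notMem (by rintro ⟨_, h2⟩; linarith)]
        rw [Real.sqrt_eq_zero_of_nonpos (by linarith)]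
        simp) (hB.1.const_mul _)
  refine ⟨h.1, ?_⟩
  rw [h.2, integral_const_mul, hB.2]

/-- `∫ du / √(u³ + 1)` -/
theorem ar_J2 : IntegrableOn (fun u : ℝ => (√(u ^ 3 + 1))⁻¹) (Ioi 0) ∧
    ∫ u in Ioi (0 : ℝ), (√(u ^ 3 + 1))⁻¹ =
      1 / 3 * (Real.Gamma (1 / 6) * Real.Gamma (1 / 3) / Real.Gamma (1 / 2)) := by
  have hB := ar_beta (show (0 : ℝ) < 1 / 6 by norm_num) (show (0 : ℝ) < 1 / 3 by norm_num)
  rw [show (1 / 6 : ℝ) + 1 / 3 = 1 / 2 by norm_num] at hB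
  -- first substitution
  set k : ℝ → ℝ := fun x => (|(1 / 3 : ℝ)| * x ^ (1 / 3 - 1 : ℝ)) • (√((x ^ (1 / 3 : ℝ)) ^ 3 + 1))⁻¹ with hk
  have hk1 : IntegrableOn k (Ioi 0) ↔ IntegrableOn (fun u : ℝ => (√(u ^ 3 + 1))⁻¹) (Ioi 0) :=
    integrableOn_Ioi_comp_rpow_iff (fun u : ℝ => (√(u ^ 3 + 1))⁻¹) (by norm_num : (1 / 3 : ℝ) ≠ 0)
  have hk2 : ∫ x in Ioi (0 : ℝ), k x = ∫ u in Ioi (0 : ℝ), (√(u ^ 3 + 1))⁻¹ :=
    integral_comp_rpow_Ioi (fun u : ℝ => (√(u ^ 3 + 1))⁻¹) (by norm_num : (1 / 3 : ℝ) ≠ 0)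
  rw [← hk1, ← hk2]
  -- second substitution
  have him : (fun x : ℝ => x⁻¹ - 1) '' (Ioo 0 1) = Ioi 0 := by
    ext y
    constructor
    · rintro ⟨x, ⟨h1, h2⟩, rfl⟩
      have := one_lt_inv_iff₀.2 ⟨h1, h2⟩
      simp only [mem_Ioi]
      linarith
    · intro hy
      rw [mem_Ioi] at hy
      refine ⟨(y + 1)⁻¹, ⟨by positivity, ?_⟩, ?_⟩
      · exact inv_lt_one_of_one_lt₀ (by linarith)
      · simp
  have hder : ∀ x ∈ Ioo (0 : ℝ) 1, HasDerivWithinAt (fun x : ℝ => x⁻¹ - 1) (-(x ^ 2)⁻¹) (Ioo 0 1) x := by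
    intro x hx
    exact ((hasDerivAt_inv hx.1.ne').sub_const 1).hasDerivWithinAt
  have hinj : InjOn (fun x : ℝ => x⁻¹ - 1) (Ioo (0 : ℝ) 1) := by
    intro x _ y _ h
    simp only [sub_left_inj, inv_inj] at h
    exact h
  have hval : ∀ x ∈ Ioo (0 : ℝ) 1, |-(x ^ 2)⁻¹| • k (x⁻¹ - 1) =
      1 / 3 * (x ^ (1 / 6 - 1 : ℝ) * (1 - x) ^ (1 / 3 - 1 : ℝ)) := by
    intro x hx
    have h2 : 0 < 1 - x := by linarith [hx.2]
    have hx0 := hx.1
    have e4 : x⁻¹ - 1 = (1 - x) * x⁻¹ := by field_simp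
    have h3 : 0 < x⁻¹ - 1 := by rw [e4]; positivity
    have e3 : ((x⁻¹ - 1) ^ (1 / 3 : ℝ)) ^ 3 = x⁻¹ - 1 := by
      rw [← Real.rpow_natCast, ← Real.rpow_mul h3.le]
      norm_num
    simp only [hk, smul_eq_mul]
    rw [e3, sub_add_cancel, Real.sqrt_inv, inv_inv, Real.sqrt_eq_rpow, e4,
      Real.mul_rpow h2.le (inv_nonneg.2 hx0.le), abs_neg, abs_of_pos (by positivity : (0 : ℝ) < (x ^ 2)⁻¹),
      abs_of_pos (by norm_num : (0 : ℝ) < 1 / 3)]
    have e5 : (x ^ 2)⁻¹ = x ^ (-2 : ℝ) := by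
      rw [Real.rpow_neg hx0.le]
      norm_num
    have e6 : (x⁻¹) ^ (1 / 3 - 1 : ℝ) = x ^ (2 / 3 : ℝ) := by
      rw [← Real.rpow_neg_one, ← Real.rpow_mul hx0.le]
      norm_num
    have e7 : x ^ (-2 : ℝ) * x ^ (2 / 3 : ℝ) * x ^ (1 / 2 : ℝ) = x ^ (1 / 6 - 1 : ℝ) := by
      rw [← Real.rpow_add hx0, ← Real.rpow_add hx0]
      norm_num
    rw [e5, e6, ← e7]
    ring
  constructor
  · rw [← him, integrableOn_image_iff_integrableOn_abs_deriv_smul measurableSet_Ioo hder hinj]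
    refine IntegrableOn.congr_fun (hB.1.const_mul (1 / 3)) ?_ measurableSet_Ioo
    intro x hx
    exact (hval x hx).symm
  · rw [← him, integral_image_eq_integral_abs_deriv_smul measurableSet_Ioo hder hinj,
      setIntegral_congr_fun measurableSet_Ioo hval, integral_const_mul, hB.2]

/-! ### the primitives -/

theorem ar_der (c u : ℝ) (h : 0 < u ^ 3 + c) :
    HasDerivAt (fun u : ℝ => u * √(u ^ 3 + c))
      (5 / 2 * √(u ^ 3 + c) - 3 / 2 * c * (√(u ^ 3 + c))⁻¹) u := by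
  have h1 : HasDerivAt (fun u : ℝ => u ^ 3 + c) (3 * u ^ 2) u := by
    simpa using (hasDerivAt_pow 3 u).add_const c
  have h2 := h1.sqrt h.ne'
  have h3 := (hasDerivAt_id u).mul h2
  have h4 : 0 < √(u ^ 3 + c) := Real.sqrt_pos.2 h
  have h5 : √(u ^ 3 + c) * √(u ^ 3 + c) = u ^ 3 + c := Real.mul_self_sqrt h.le
  refine (h3.congr_deriv ?_)
  simp only [id]
  field_simp
  nlinarith

theorem ar_gap {x y : ℝ} (hy : 0 ≤ y) (hxy : x = y + 1) : 0 ≤ √x - √y ∧ √x - √y ≤ (√x)⁻¹ := by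
  have hx : 0 < x := by linarith
  have h1 : √y ≤ √x := Real.sqrt_le_sqrt (by linarith)
  have h2 : 0 < √x := Real.sqrt_pos.2 hx
  refine ⟨by linarith, ?_⟩
  rw [← one_div, le_div_iff₀ h2]
  nlinarith [Real.mul_self_sqrt hx.le, Real.mul_self_sqrt hy, Real.sqrt_nonneg y,
    mul_nonneg (sub_nonneg.2 h1) (Real.sqrt_nonneg y)]

theorem ar_dec {F : ℝ → ℝ} (h : ∀ u : ℝ, 1 < u → 0 ≤ F u ∧ F u ≤ u * (√(u ^ 3))⁻¹) :
    Tendsto F atTop (𝓝 0) := by
  have h1 : Tendsto (fun u : ℝ => (√u)⁻¹) atTop (𝓝 0) :=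
    tendsto_inv_atTop_zero.comp Real.tendsto_sqrt_atTop
  refine squeeze_zero' ?_ ?_ h1
  · filter_upwards [eventually_gt_atTop 1] with u hu using (h u hu).1
  · filter_upwards [eventually_gt_atTop 1] with u hu
    refine (h u hu).2.trans (le_of_eq ?_)
    have h0 : 0 < u := by linarith
    rw [show u ^ 3 = u ^ 2 * u by ring, Real.sqrt_mul (by positivity), Real.sqrt_sq h0.le]
    have : 0 < √u := Real.sqrt_pos.2 h0
    field_simp

theorem ar_A2 : IntegrableOn (fun u : ℝ => √(u ^ 3 + 1) - √(u ^ 3)) (Ioi 0) ∧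
    ∫ u in Ioi (0 : ℝ), (√(u ^ 3 + 1) - √(u ^ 3)) = 3 / 5 * ∫ u in Ioi (0 : ℝ), (√(u ^ 3 + 1))⁻¹ := by
  have hJ := ar_J2.1
  have hb : ∀ u ∈ Ioi (0 : ℝ), 0 ≤ √(u ^ 3 + 1) - √(u ^ 3) ∧
      √(u ^ 3 + 1) - √(u ^ 3) ≤ (√(u ^ 3 + 1))⁻¹ := by
    intro u hu
    rw [mem_Ioi] at hu
    exact ar_gap (by positivity) rfl
  have hI : IntegrableOn (fun u : ℝ => √(u ^ 3 + 1) - √(u ^ 3)) (Ioi 0) := by
    refine Integrable.mono' hJ (Continuous.aestronglyMeasurable (by fun_prop)) ?_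
    filter_upwards [ae_restrict_mem measurableSet_Ioi] with u hu
    rw [Real.norm_eq_abs, abs_of_nonneg (hb u hu).1]
    exact (hb u hu).2
  refine ⟨hI, ?_⟩
  have hd : ∀ u ∈ Ioi (0 : ℝ), HasDerivAt (fun u : ℝ => u * √(u ^ 3 + 1) - u * √(u ^ 3 + 0))
      (5 / 2 * (√(u ^ 3 + 1) - √(u ^ 3)) - 3 / 2 * (√(u ^ 3 + 1))⁻¹) u := by
    intro u hu
    rw [mem_Ioi] at hu
    refine ((ar_der 1 u (by positivity)).sub (ar_der 0 u (by positivity))).congr_deriv ?_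
    simp only [add_zero]
    ring
  have hT : Tendsto (fun u : ℝ => u * √(u ^ 3 + 1) - u * √(u ^ 3 + 0)) atTop (𝓝 0) := by
    refine ar_dec ?_
    intro u hu
    have h0 : (0 : ℝ) < u := by linarith
    have h1 := hb u h0
    have h2 : (√(u ^ 3 + 1))⁻¹ ≤ (√(u ^ 3))⁻¹ := by
      apply inv_anti₀
      · positivity
      · exact Real.sqrt_le_sqrt (by linarith)
    rw [add_zero, ← mul_sub]
    exact ⟨mul_nonneg h0.le h1.1, mul_le_mul_of_nonneg_left (h1.2.trans h2) h0.le⟩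
  have h1 := integral_Ioi_of_hasDerivAt_of_tendsto (a := 0) (m := 0)
    (f := fun u : ℝ => u * √(u ^ 3 + 1) - u * √(u ^ 3 + 0))
    (Continuous.continuousWithinAt (by fun_prop)) hd
    ((hI.const_mul (5 / 2)).sub (hJ.const_mul (3 / 2))) hT
  rw [integral_sub (hI.const_mul (5 / 2)) (hJ.const_mul (3 / 2)), integral_const_mul,
    integral_const_mul] at h1
  simp only [zero_mul, sub_zero] at h1
  linarith

theorem ar_A1 : IntegrableOn (fun u : ℝ => √(u ^ 3) - √(u ^ 3 - 1)) (Ioi 0) ∧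
    ∫ u in Ioi (0 : ℝ), (√(u ^ 3) - √(u ^ 3 - 1)) = 3 / 5 * ∫ u in Ioi (0 : ℝ), (√(u ^ 3 - 1))⁻¹ := by
  have hJ0 := ar_J1.1
  have hs : Ioi (1 : ℝ) ⊆ Ioi 0 := Ioi_subset_Ioi zero_le_one
  have hJ := hJ0.mono_set hs
  have hb : ∀ u ∈ Ioi (1 : ℝ), 0 ≤ √(u ^ 3) - √(u ^ 3 - 1) ∧
      √(u ^ 3) - √(u ^ 3 - 1) ≤ (√(u ^ 3))⁻¹ := by
    intro u hu
    rw [mem_Ioi] at hu
    have h3 : 1 < u ^ 3 := one_lt_pow₀ hu (by norm_num)
    exact ar_gap (by linarith) (by ring)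
  have hb2 : ∀ u ∈ Ioi (1 : ℝ), (√(u ^ 3))⁻¹ ≤ (√(u ^ 3 - 1))⁻¹ := by
    intro u hu
    rw [mem_Ioi] at hu
    have h3 : 1 < u ^ 3 := one_lt_pow₀ hu (by norm_num)
    apply inv_anti₀
    · exact Real.sqrt_pos.2 (by linarith)
    · exact Real.sqrt_le_sqrt (by linarith)
  have hI : IntegrableOn (fun u : ℝ => √(u ^ 3) - √(u ^ 3 - 1)) (Ioi 1) := by
    refine Integrable.mono' hJ (Continuous.aestronglyMeasurable (by fun_prop)) ?_
    filter_upwards [ae_restrict_mem measurableSet_Ioi] with u hu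
    rw [Real.norm_eq_abs, abs_of_nonneg (hb u hu).1]
    exact (hb u hu).2.trans (hb2 u hu)
  have hd : ∀ u ∈ Ioi (1 : ℝ), HasDerivAt (fun u : ℝ => u * √(u ^ 3 + 0) - u * √(u ^ 3 + -1))
      (5 / 2 * (√(u ^ 3) - √(u ^ 3 - 1)) - 3 / 2 * (√(u ^ 3 - 1))⁻¹) u := by
    intro u hu
    rw [mem_Ioi] at hu
    have h3 : 1 < u ^ 3 := one_lt_pow₀ hu (by norm_num)
    refine ((ar_der 0 u (by linarith)).sub (ar_der (-1) u (by linarith))).congr_deriv ?_
    simp only [add_zero, ← sub_eq_add_neg]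
    ring
  have hT : Tendsto (fun u : ℝ => u * √(u ^ 3 + 0) - u * √(u ^ 3 + -1)) atTop (𝓝 0) := by
    refine ar_dec ?_
    intro u hu
    have h0 : (0 : ℝ) < u := by linarith
    have h1 := hb u hu
    rw [add_zero, ← sub_eq_add_neg, ← mul_sub]
    exact ⟨mul_nonneg h0.le h1.1, mul_le_mul_of_nonneg_left h1.2 h0.le⟩
  have h1 := integral_Ioi_of_hasDerivAt_of_tendsto (a := 1) (m := 0)
    (f := fun u : ℝ => u * √(u ^ 3 + 0) - u * √(u ^ 3 + -1))
    (Continuous.continuousWithinAt (by fun_prop)) hd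
    ((hI.const_mul (5 / 2)).sub (hJ.const_mul (3 / 2))) hT
  rw [integral_sub (hI.const_mul (5 / 2)) (hJ.const_mul (3 / 2)), integral_const_mul,
    integral_const_mul] at h1
  norm_num at h1
  -- the part below `1`
  have hU : Ioi (0 : ℝ) = Ioc 0 1 ∪ Ioi 1 := (Ioc_union_Ioi_eq_Ioi zero_le_one).symm
  have hdj : Disjoint (Ioc (0 : ℝ) 1) (Ioi 1) := by
    rw [Set.disjoint_left]
    intro x hx hx2
    exact absurd hx.2 (not_le.2 hx2)
  have hz : ∀ u ∈ Ioc (0 : ℝ) 1, √(u ^ 3 - 1) = 0 := by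
    intro u hu
    apply Real.sqrt_eq_zero_of_nonpos
    have : u ^ 3 ≤ 1 := pow_le_one₀ hu.1.le hu.2
    linarith
  have hI1 : IntegrableOn (fun u : ℝ => √(u ^ 3) - √(u ^ 3 - 1)) (Ioc 0 1) :=
    (Continuous.integrableOn_Ioc (by fun_prop))
  have hv1 : ∫ u in Ioc (0 : ℝ) 1, (√(u ^ 3) - √(u ^ 3 - 1)) = 2 / 5 := by
    have e1 : ∀ u ∈ Ioc (0 : ℝ) 1, √(u ^ 3) - √(u ^ 3 - 1) = u ^ (3 / 2 : ℝ) := by
      intro u hu
      rw [hz u hu, sub_zero, Real.sqrt_eq_rpow, ← Real.rpow_natCast, ← Real.rpow_mul hu.1.le]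
      norm_num
    rw [setIntegral_congr_fun measurableSet_Ioc e1, ← intervalIntegral.integral_of_le zero_le_one,
      integral_rpow (Or.inl (by norm_num))]
    norm_num
  have hv2 : ∫ u in Ioc (0 : ℝ) 1, (√(u ^ 3 - 1))⁻¹ = 0 := by
    rw [setIntegral_congr_fun (g := fun _ => (0 : ℝ)) measurableSet_Ioc
      (fun u hu => by simp [hz u hu])]
    simp
  refine ⟨?_, ?_⟩
  · rw [hU]
    exact hI1.union hI
  · rw [hU, setIntegral_union hdj measurableSet_Ioi hI1 hI, hv1,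
      setIntegral_union hdj measurableSet_Ioi (hJ0.mono_set Ioc_subset_Ioi_self) hJ, hv2]
    linarith

theorem ar_two (f : ℝ → ℝ) (hf : Continuous f) (A B : ℝ)
    (h1 : IntegrableOn f (Ioi 0)) (h2 : IntegrableOn (fun x => f (-x)) (Ioi 0))
    (e1 : ∫ x in Ioi (0 : ℝ), f x = A) (e2 : ∫ x in Ioi (0 : ℝ), f (-x) = B) :
    Tendsto (fun M : ℝ => ∫ u in (-M)..M, f u) atTop (𝓝 (B + A)) := by
  have t1 := intervalIntegral_tendsto_integral_Ioi 0 h1 tendsto_id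
  have t2 := intervalIntegral_tendsto_integral_Ioi 0 h2 tendsto_id
  rw [e1] at t1
  rw [e2] at t2
  refine (t2.add t1).congr ?_
  intro M
  simp only [id]
  rw [intervalIntegral.integral_comp_neg, neg_zero]
  exact intervalIntegral.integral_add_adjacent_intervals (hf.intervalIntegrable _ _)
    (hf.intervalIntegrable _ _)

/-! ### the Gamma values -/

theorem ar_gam : Real.Gamma (1 / 6) * Real.Gamma (1 / 3) / Real.Gamma (1 / 2) +
    Real.Gamma (1 / 3) * Real.Gamma (1 / 2) / Real.Gamma (5 / 6) =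
    √3 * (Real.Gamma (1 / 6) * Real.Gamma (1 / 2) / Real.Gamma (2 / 3)) := by
  have r1 := Real.Gamma_mul_Gamma_one_sub (1 / 6)
  have r2 := Real.Gamma_mul_Gamma_one_sub (1 / 3)
  have r3 := Real.Gamma_mul_Gamma_one_sub (1 / 2)
  rw [show Real.pi * (1 / 6) = Real.pi / 6 by ring, Real.sin_pi_div_six,
    show (1 : ℝ) - 1 / 6 = 5 / 6 by norm_num] at r1
  rw [show Real.pi * (1 / 3) = Real.pi / 3 by ring, Real.sin_pi_div_three,
    show (1 : ℝ) - 1 / 3 = 2 / 3 by norm_num] at r2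
  rw [show Real.pi * (1 / 2) = Real.pi / 2 by ring, Real.sin_pi_div_two,
    show (1 : ℝ) - 1 / 2 = 1 / 2 by norm_num, div_one] at r3
  have p1 : 0 < Real.Gamma (1 / 6) := Real.Gamma_pos_of_pos (by norm_num)
  have p2 : 0 < Real.Gamma (1 / 3) := Real.Gamma_pos_of_pos (by norm_num)
  have p3 : 0 < Real.Gamma (1 / 2) := Real.Gamma_pos_of_pos (by norm_num)
  have p4 : 0 < Real.Gamma (2 / 3) := Real.Gamma_pos_of_pos (by norm_num)
  have p5 : 0 < Real.Gamma (5 / 6) := Real.Gamma_pos_of_pos (by norm_num)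
  have ps : 0 < √(3 : ℝ) := Real.sqrt_pos.2 (by norm_num)
  have hs : √(3 : ℝ) * √3 = 3 := Real.mul_self_sqrt (by norm_num)
  generalize Real.Gamma (1 / 6) = a at *
  generalize Real.Gamma (1 / 3) = b at *
  generalize Real.Gamma (1 / 2) = c at *
  generalize Real.Gamma (2 / 3) = d at *
  generalize Real.Gamma (5 / 6) = e at *
  have e1 : e = 2 * (c * c) / a := by
    rw [eq_div_iff p1.ne', r3, mul_comm, r1]
    field_simp
  have e2 : d = 2 * (c * c) / (√3 * b) := by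
    rw [eq_div_iff (by positivity), r3]
    have : d * (√3 * b) = (b * d) * √3 := by ring
    rw [this, r2]
    field_simp
  rw [e1, e2]
  field_simp
  nlinarith

open Pool.Agent.U73.LC in
theorem t_AREA : Pool.Agent.U73.LC.S_AREA := by
  have hG := ar_gam
  have g1 : Real.Gamma (3 / 2) = 1 / 2 * Real.Gamma (1 / 2) := by
    rw [show (3 / 2 : ℝ) = 1 / 2 + 1 by norm_num, Real.Gamma_add_one (by norm_num)]
  have g2 : Real.Gamma (11 / 6) = 5 / 6 * Real.Gamma (5 / 6) := by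
    rw [show (11 / 6 : ℝ) = 5 / 6 + 1 by norm_num, Real.Gamma_add_one (by norm_num)]
  have p5 : 0 < Real.Gamma (5 / 6) := Real.Gamma_pos_of_pos (by norm_num)
  constructor
  · have h := ar_two (Ls true) (by show Continuous (fun u : ℝ => 2 * (√(u ^ 3) - √(u ^ 3 - 1))); fun_prop)
      (2 / 5 * Bc) 0 (by
        show IntegrableOn (fun u : ℝ => 2 * (√(u ^ 3) - √(u ^ 3 - 1))) (Ioi 0)
        exact ar_A1.1.const_mul 2) (by
        refine IntegrableOn.congr_fun (f := fun _ => (0 : ℝ)) integrableOn_zero ?_ measurableSet_Ioi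
        intro u hu
        rw [mem_Ioi] at hu
        have h3 : 0 < u ^ 3 := by positivity
        show (0 : ℝ) = 2 * (√((-u) ^ 3) - √((-u) ^ 3 - 1))
        rw [Real.sqrt_eq_zero_of_nonpos (by nlinarith), Real.sqrt_eq_zero_of_nonpos (by nlinarith)]
        simp) (by
        show ∫ u in Ioi (0 : ℝ), 2 * (√(u ^ 3) - √(u ^ 3 - 1)) = 2 / 5 * Bc
        rw [integral_const_mul, ar_A1.2, ar_J1.2, Bc]
        ring) (by
        rw [setIntegral_congr_fun (g := fun _ => (0 : ℝ)) measurableSet_Ioi (fun u hu => by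
          rw [mem_Ioi] at hu
          have h3 : 0 < u ^ 3 := by positivity
          show 2 * (√((-u) ^ 3) - √((-u) ^ 3 - 1)) = 0
          rw [Real.sqrt_eq_zero_of_nonpos (by nlinarith), Real.sqrt_eq_zero_of_nonpos (by nlinarith)]
          simp)]
        simp)
    rwa [zero_add] at h
  · have hneg : ∀ u ∈ Ioi (0 : ℝ), Ls false (-u) = 2 * √(1 - u ^ 3) := by
      intro u hu
      rw [mem_Ioi] at hu
      have h3 : 0 < u ^ 3 := by positivity
      show 2 * (√((-u) ^ 3 + 1) - √((-u) ^ 3)) = 2 * √(1 - u ^ 3)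
      rw [Real.sqrt_eq_zero_of_nonpos (show (-u) ^ 3 ≤ 0 by nlinarith), sub_zero,
        show (-u) ^ 3 + 1 = 1 - u ^ 3 by ring]
    have h := ar_two (Ls false) (by show Continuous (fun u : ℝ => 2 * (√(u ^ 3 + 1) - √(u ^ 3))); fun_prop)
      (2 * (3 / 5 * (1 / 3 * (Real.Gamma (1 / 6) * Real.Gamma (1 / 3) / Real.Gamma (1 / 2)))))
      (2 * (1 / 3 * (Real.Gamma (1 / 3) * Real.Gamma (3 / 2) / Real.Gamma (11 / 6)))) (by
        show IntegrableOn (fun u : ℝ => 2 * (√(u ^ 3 + 1) - √(u ^ 3))) (Ioi 0)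
        exact ar_A2.1.const_mul 2) (by
        refine IntegrableOn.congr_fun (ar_J3.1.const_mul 2) ?_ measurableSet_Ioi
        intro u hu
        exact (hneg u hu).symm) (by
        show ∫ u in Ioi (0 : ℝ), 2 * (√(u ^ 3 + 1) - √(u ^ 3)) = _
        rw [integral_const_mul, ar_A2.2, ar_J2.2]) (by
        rw [setIntegral_congr_fun measurableSet_Ioi hneg, integral_const_mul, ar_J3.2])
    have hv : 2 * (1 / 3 * (Real.Gamma (1 / 3) * Real.Gamma (3 / 2) / Real.Gamma (11 / 6))) +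
        2 * (3 / 5 * (1 / 3 * (Real.Gamma (1 / 6) * Real.Gamma (1 / 3) / Real.Gamma (1 / 2)))) =
        √3 * (2 / 5 * Bc) := by
      rw [Bc, show √3 * (2 / 5 * (Real.Gamma (1 / 6) * Real.Gamma (1 / 2) / Real.Gamma (2 / 3))) =
        2 / 5 * (√3 * (Real.Gamma (1 / 6) * Real.Gamma (1 / 2) / Real.Gamma (2 / 3))) by ring, ← hG, g1, g2]
      have : Real.Gamma (1 / 3) * (1 / 2 * Real.Gamma (1 / 2)) / (5 / 6 * Real.Gamma (5 / 6)) =
          3 / 5 * (Real.Gamma (1 / 3) * Real.Gamma (1 / 2) / Real.Gamma (5 / 6)) := by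
        field_simp
        ring
      rw [this]
      ring
    rwa [hv] at h

end Pool.Agent.U653.LC
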